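import Mathlib
import Pool.Agent.R66.RD.Defs
import Pool.Agent.R66.RD.Upper

/-!
For every finite graph `F` with at least one vertex, the Ramsey upper density of the infinite
factor `ω·F` equals `f(m(F))`. Both inequalities are proved.
-/

namespace Pool.Agent.Results.MP_8cf4b7_co.RamseyUpperDensityOfFactors

open Pool.Agent.R66.RD

theorem result {V : Type*} [Fintype V] [Nonempty V] (F : SimpleGraph V) :
    ramseyUpperDensity (omegaFactor F) = fFun (minRatio F) :=
  density_eq F

end Pool.Agent.Results.MP_8cf4b7_co.RamseyUpperDensityOfFactors
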